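import Pool.Agent.W991.Stoch.Defs
import Pool.Agent.W991.Stoch.Model

/-!
# Online matching with stochastic rewards: beating one half

For unrestricted edge probabilities there is a randomised online algorithm whose expected reward on
every instance is at least `1/2 + 1/2000` times the expected reward of the best offline policy.

The algorithm gives every offline vertex, independently and with probability one half each, the
weight `251/500` or `244/500`, and matches every arriving vertex to the available offline vertex with
the largest product of edge probability and weight.
-/

set_option autoImplicit false

namespace Pool.Agent.Results.MP_3a6b37_lc.BeatsHalf

open Pool.Agent.W991.Stoch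

/-- Some randomised online algorithm for online matching with stochastic rewards, with arbitrary
edge probabilities, has competitive ratio at least `1/2 + 1/2000` against the offline adaptive
optimum. -/
theorem result : ∃ A : RandomizedAlgorithm, ∀ (m : ℕ) (I : List (Arrival m)),
    (1 / 2 + 1 / 2000) * opt I ≤ A.expectedReward I :=
  ⟨algo, fun m I => main m I⟩

end Pool.Agent.Results.MP_3a6b37_lc.BeatsHalf
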